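import Pool.Agent.Helper21.MZVField
import Pool.Agent.Helper21.MZVWindow

/-!
# Propagation of relations between weights: the defect (helper60)

`W n`, `n ≥ 0`, are finite dimensional subspaces of `ℝ` over a subfield with `W m * W n ⊆ W (m + n)`.
-/

set_option autoImplicit false

open Finset Polynomial

namespace Pool.Agent.PRP

variable {F : Type} [Field F] [Algebra F ℝ] {W : ℕ → Submodule F ℝ}

/-- the sum map -/
noncomputable def sg (W : ℕ → Submodule F ℝ) (M : ℕ) : (∀ i : Fin (M + 1), W i) →ₗ[F] ℝ :=
  ∑ i : Fin (M + 1), (W i).subtype ∘ₗ LinearMap.proj i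

theorem sg_apply (M : ℕ) (v : ∀ i : Fin (M + 1), W i) : sg W M v = ∑ i, (v i : ℝ) := by
  unfold sg
  rw [LinearMap.sum_apply]
  rfl

theorem le_range_sg (M : ℕ) : (⨆ n ∈ range (M + 1), W n) ≤ LinearMap.range (sg W M) := by
  classical
  refine iSup₂_le fun n hn x hx => ?_
  have hn' : n < M + 1 := mem_range.1 hn
  refine ⟨Pi.single (⟨n, hn'⟩ : Fin (M + 1)) (⟨x, hx⟩ : W n), ?_⟩
  rw [sg_apply, Finset.sum_eq_single (⟨n, hn'⟩ : Fin (M + 1))]
  · rw [Pi.single_eq_same]
  · intro b _ hb
    rw [Pi.single_eq_of_ne hb]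
    rfl
  · intro h
    exact absurd (Finset.mem_univ _) h

/-- the polynomial of a family -/
noncomputable def pl (W : ℕ → Submodule F ℝ) (K : ℕ) : (∀ i : Fin (K + 1), W i) →ₗ[F] ℝ[X] :=
  ∑ i : Fin (K + 1), ((monomial (R := ℝ) (i : ℕ)).restrictScalars F) ∘ₗ
    ((W i).subtype ∘ₗ LinearMap.proj i)

theorem pl_apply (K : ℕ) (v : ∀ i : Fin (K + 1), W i) :
    pl W K v = ∑ i : Fin (K + 1), monomial (i : ℕ) (v i : ℝ) := by
  unfold pl
  rw [LinearMap.sum_apply]
  rfl

theorem coeff_pl (K : ℕ) (v : ∀ i : Fin (K + 1), W i) (i : Fin (K + 1)) :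
    (pl W K v).coeff i = v i := by
  rw [pl_apply, finsetSum_coeff, Finset.sum_eq_single i]
  · rw [coeff_monomial_same]
  · intro b _ hb
    rw [coeff_monomial, if_neg fun h => hb (Fin.ext h)]
  · intro h
    exact absurd (Finset.mem_univ _) h

theorem coeff_pl_mem (K : ℕ) (v : ∀ i : Fin (K + 1), W i) (n : ℕ) :
    (pl W K v).coeff n ∈ W n := by
  rcases Nat.lt_or_ge n (K + 1) with h | h
  · have h1 : (pl W K v).coeff n = (v ⟨n, h⟩ : ℝ) := coeff_pl K v ⟨n, h⟩
    rw [h1]
    exact (v ⟨n, h⟩).2
  · rw [pl_apply, finsetSum_coeff]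
    have h1 : ∀ i ∈ (Finset.univ : Finset (Fin (K + 1))),
        (monomial (i : ℕ) (v i : ℝ)).coeff n = 0 := by
      intro i _
      rw [coeff_monomial, if_neg]
      have := i.2
      omega
    rw [Finset.sum_eq_zero h1]
    exact Submodule.zero_mem _

theorem natDegree_pl (K : ℕ) (v : ∀ i : Fin (K + 1), W i) : (pl W K v).natDegree ≤ K := by
  rw [pl_apply]
  refine natDegree_sum_le_of_forall_le _ _ fun i _ => ?_
  refine (natDegree_monomial_le _).trans ?_
  have := i.2
  omega

theorem eval_pl (K : ℕ) (v : ∀ i : Fin (K + 1), W i) : (pl W K v).eval 1 = sg W K v := by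
  rw [pl_apply, sg_apply, eval_finsetSum]
  exact Finset.sum_congr rfl fun i _ => by rw [eval_monomial, one_pow, mul_one]

theorem pl_inj (K : ℕ) (v : ∀ i : Fin (K + 1), W i) (h : pl W K v = 0) : v = 0 := by
  funext i
  refine Subtype.ext ?_
  rw [← coeff_pl, h, coeff_zero]
  rfl

/-- a relation between the weights at most `N` gives a defect in all weights -/
theorem defect (hmul : ∀ m n x y, x ∈ W m → y ∈ W n → x * y ∈ W (m + n))
    (hfin : ∀ n, Module.Finite F (W n)) (N K : ℕ) (z : ∀ i : Fin (N + 1), W i) (hz : z ≠ 0)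
    (hs : sg W N z = 0) :
    Module.finrank F ↥(⨆ n ∈ range (K + N + 1), W n) +
      ∑ n ∈ range (K + 1), Module.finrank F (W n) ≤
      ∑ n ∈ range (K + N + 1), Module.finrank F (W n) := by
  have hfin' := hfin
  have hzp : pl W N z ≠ 0 := fun h => hz (pl_inj N z h)
  -- the product
  have hmem : ∀ (v : ∀ i : Fin (K + 1), W i) (n : ℕ), (pl W K v * pl W N z).coeff n ∈ W n := by
    intro v n
    rw [coeff_mul]
    refine Submodule.sum_mem _ fun p hp => ?_
    have h1 := hmul p.1 p.2 _ _ (coeff_pl_mem K v p.1) (coeff_pl_mem N z p.2)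
    rwa [mem_antidiagonal.1 hp] at h1
  let μ : (∀ i : Fin (K + 1), W i) →ₗ[F] (∀ i : Fin (K + N + 1), W i) :=
    { toFun := fun v i => ⟨(pl W K v * pl W N z).coeff i, hmem v i⟩
      map_add' := by
        intro v v'
        funext i
        refine Subtype.ext ?_
        show (pl W K (v + v') * pl W N z).coeff i =
          (pl W K v * pl W N z).coeff i + (pl W K v' * pl W N z).coeff i
        rw [map_add, add_mul, coeff_add]
      map_smul' := by
        intro c v
        funext i
        refine Subtype.ext ?_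
        show (pl W K (c • v) * pl W N z).coeff i = c • (pl W K v * pl W N z).coeff i
        rw [map_smul, smul_mul_assoc, coeff_smul] }
  have hμ : ∀ v i, ((μ v) i : ℝ) = (pl W K v * pl W N z).coeff i := fun v i => rfl
  have hker : ∀ v, μ v ∈ LinearMap.ker (sg W (K + N)) := by
    intro v
    rw [LinearMap.mem_ker, sg_apply]
    have h1 : (pl W K v * pl W N z).eval 1 = 0 := by
      rw [eval_mul, eval_pl, eval_pl, hs, mul_zero]
    have h2 : (pl W K v * pl W N z).natDegree < K + N + 1 := by
      have h3 := natDegree_mul_le (p := pl W K v) (q := pl W N z)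
      have h4 := natDegree_pl K v
      have h5 := natDegree_pl N z
      omega
    rw [eval_eq_sum_range' h2, Finset.sum_range] at h1
    rw [← h1]
    exact Finset.sum_congr rfl fun i _ => by rw [hμ, one_pow, mul_one]
  have hinj : Function.Injective (LinearMap.codRestrict (LinearMap.ker (sg W (K + N))) μ hker) := by
    rw [injective_iff_map_eq_zero]
    intro v hv
    have h1 : μ v = 0 := congrArg Subtype.val hv
    have h2 : pl W K v * pl W N z = 0 := by
      ext n
      rw [coeff_zero]
      rcases Nat.lt_or_ge n (K + N + 1) with h | h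
      · have h3 := hμ v ⟨n, h⟩
        rw [h1] at h3
        exact h3.symm
      · refine coeff_eq_zero_of_natDegree_lt ?_
        have h3 := natDegree_mul_le (p := pl W K v) (q := pl W N z)
        have h4 := natDegree_pl K v
        have h5 := natDegree_pl N z
        omega
    rcases mul_eq_zero.1 h2 with h3 | h3
    · exact pl_inj K v h3
    · exact absurd h3 hzp
  have h1 := LinearMap.finrank_le_finrank_of_injective hinj
  have h2 := LinearMap.finrank_range_add_finrank_ker (sg W (K + N))
  have h3 : Module.finrank F ↥(⨆ n ∈ range (K + N + 1), W n) ≤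
      Module.finrank F (LinearMap.range (sg W (K + N))) :=
    Submodule.finrank_mono (le_range_sg (K + N))
  rw [Module.finrank_pi_fintype] at h1 h2
  rw [← Finset.sum_range (fun n => Module.finrank F (W n))] at h1 h2
  omega

/-- counting of the large quotients -/
theorem count (S : ℕ → ℕ) (hS : Monotone S) (h0 : 1 ≤ S 0) (hb : ∀ n, S n ≤ 2 ^ (n + 1))
    (m h : ℕ) (X : ℕ) :
    h * ((range X).filter fun n => 2 ^ h * S n < S (n + m)).card ≤ m * (X + m) := by
  have hpos : ∀ n, 1 ≤ S n := fun n => h0.trans (hS (Nat.zero_le n))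
  -- the product over a window
  let f : ℕ → ℕ := fun X => ∏ j ∈ range m, S (X + j)
  have hf0 : ∀ X, 0 < f X := fun X => Finset.prod_pos fun j _ => hpos _
  have hstep : ∀ X, f (X + 1) * S X = f X * S (X + m) := by
    intro X
    have h1 : f X * S (X + m) = ∏ j ∈ range (m + 1), S (X + j) := by
      rw [Finset.prod_range_succ]
    have h2 : f (X + 1) * S X = ∏ j ∈ range (m + 1), S (X + j) := by
      rw [Finset.prod_range_succ']
      congr 1
      refine Finset.prod_congr rfl fun j _ => ?_
      rw [add_assoc, add_comm 1 j]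
    rw [h1, h2]
  have key : ∀ X, 2 ^ (h * ((range X).filter fun n => 2 ^ h * S n < S (n + m)).card) ≤ f X := by
    intro X
    induction X with
    | zero =>
      simp only [range_zero, filter_empty, card_empty, mul_zero, pow_zero]
      exact hf0 0
    | succ X ih =>
      rw [Finset.range_add_one, Finset.filter_insert]
      have h3 := hstep X
      split_ifs with hc
      · rw [Finset.card_insert_of_notMem (by simp), mul_add, mul_one, pow_add]
        have h4 : 2 ^ h * f X * S X ≤ f (X + 1) * S X := by
          rw [h3]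
          calc 2 ^ h * f X * S X = f X * (2 ^ h * S X) := by ring
            _ ≤ f X * S (X + m) := Nat.mul_le_mul_left _ hc.le
        have h5 := Nat.le_of_mul_le_mul_right h4 (hpos X)
        calc _ ≤ f X * 2 ^ h := Nat.mul_le_mul_right _ ih
          _ = 2 ^ h * f X := mul_comm _ _
          _ ≤ f (X + 1) := h5
      · refine ih.trans ?_
        have h4 : f X * S X ≤ f (X + 1) * S X := by
          rw [h3]
          exact Nat.mul_le_mul_left _ (hS (Nat.le_add_right X m))
        exact Nat.le_of_mul_le_mul_right h4 (hpos X)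
  have hfb : f X ≤ 2 ^ (m * (X + m)) := by
    calc f X ≤ ∏ j ∈ range m, 2 ^ (X + m) := by
          refine Finset.prod_le_prod' fun j hj => (hb _).trans ?_
          refine Nat.pow_le_pow_right (by norm_num) ?_
          have := mem_range.1 hj
          omega
      _ = 2 ^ (m * (X + m)) := by
          rw [Finset.prod_const, card_range, ← pow_mul, mul_comm]
  exact (Nat.pow_le_pow_iff_right (by norm_num)).1 ((key X).trans hfb)

end Pool.Agent.PRP
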