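import Pool.Agent.PRP.Sparse

/-!
# Propagation of relations between weights: the parts of the theorem (helper60)
-/

set_option autoImplicit false

open Finset

namespace Pool.Agent.PRP

open Pool.Agent.Helper21

/-- the defect, for both fields -/
theorem defectQ (N : ℕ) (h : ¬ iSupIndep (fun i : Fin (N + 1) => mzvSpace i)) (K : ℕ) :
    Module.finrank ℚ ↥(⨆ n ∈ range (K + N + 1), mzvSpace n) +
      ∑ n ∈ range (K + 1), Module.finrank ℚ (mzvSpace n) ≤
      ∑ n ∈ range (K + N + 1), Module.finrank ℚ (mzvSpace n) := by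
  obtain ⟨z, hz, hsum, n, hn, hne⟩ := exists_relation N h
  refine defect (W := mzvSpace) (fun m n x y hx hy => mul_mem_mzvSpace hx hy) finite_mzvSpace N K
    (fun i => ⟨z i, hz i⟩) ?_ ?_
  · intro h0
    have h1 := congrArg Subtype.val (congrFun h0 ⟨n, Nat.lt_succ_of_le hn⟩)
    exact hne h1
  · rw [sg_apply, ← Finset.sum_range (fun i => z i)]
    exact hsum

theorem defectA (N : ℕ) (h : ¬ iSupIndep (fun i : Fin (N + 1) => mzvSpace i)) (K : ℕ) :
    Module.finrank (algebraicClosure ℚ ℝ) ↥(⨆ n ∈ range (K + N + 1), algSpace n) +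
      ∑ n ∈ range (K + 1), Module.finrank (algebraicClosure ℚ ℝ) (algSpace n) ≤
      ∑ n ∈ range (K + N + 1), Module.finrank (algebraicClosure ℚ ℝ) (algSpace n) := by
  obtain ⟨z, hz, hsum, n, hn, hne⟩ := exists_relation N h
  refine defect (W := algSpace) (fun m n x y hx hy => mul_mem_algSpace hx hy) finite_algSpace N K
    (fun i => ⟨z i, mem_algSpace (hz i)⟩) ?_ ?_
  · intro h0
    have h1 := congrArg Subtype.val (congrFun h0 ⟨n, Nat.lt_succ_of_le hn⟩)
    exact hne h1
  · rw [sg_apply, ← Finset.sum_range (fun i => z i)]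
    exact hsum

/-- a positive share of all relations, outside a set of weights of small density -/
theorem share {F : Type} [Field F] [Algebra F ℝ] (W : ℕ → Submodule F ℝ) (N : ℕ)
    (h1 : 1 ≤ Module.finrank F (W 0)) (hb : ∀ n, Module.finrank F (W n) ≤ 2 ^ n)
    (hd : ∀ K, Module.finrank F ↥(⨆ n ∈ range (K + N + 1), W n) +
      ∑ n ∈ range (K + 1), Module.finrank F (W n) ≤
      ∑ n ∈ range (K + N + 1), Module.finrank F (W n)) (h : ℕ) (X : ℕ) :
    h * ((range X).filter fun M => ¬ (Module.finrank F ↥(⨆ n ∈ range (M + 1), W n) : ℝ) ≤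
      (1 - 1 / 2 ^ h) * ∑ n ∈ range (M + 1), (Module.finrank F (W n) : ℝ)).card ≤
      N * (X + N) + h * N := by
  classical
  let S : ℕ → ℕ := fun K => ∑ n ∈ range (K + 1), Module.finrank F (W n)
  have hS : Monotone S := fun a b hab =>
    Finset.sum_le_sum_of_subset (Finset.range_mono (Nat.succ_le_succ hab))
  have hS0 : 1 ≤ S 0 := by
    show 1 ≤ ∑ n ∈ range 1, Module.finrank F (W n)
    rw [Finset.sum_range_one]
    exact h1
  have hSb : ∀ n, S n ≤ 2 ^ (n + 1) := by
    intro n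
    calc S n ≤ ∑ k ∈ range (n + 1), 2 ^ k := Finset.sum_le_sum fun k _ => hb k
      _ = 2 ^ (n + 1) - 1 := by rw [Nat.geomSum_eq (le_refl 2)]; simp
      _ ≤ 2 ^ (n + 1) := Nat.sub_le _ _
  have hc := count S hS hS0 hSb N h X
  have hsub : ((range X).filter fun M => ¬ (Module.finrank F ↥(⨆ n ∈ range (M + 1), W n) : ℝ) ≤
      (1 - 1 / 2 ^ h) * ∑ n ∈ range (M + 1), (Module.finrank F (W n) : ℝ)) ⊆
      range N ∪ ((range X).filter fun n => 2 ^ h * S n < S (n + N)).image (· + N) := by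
    intro M hM
    rw [Finset.mem_filter, Finset.mem_range] at hM
    rw [Finset.mem_union, Finset.mem_range, Finset.mem_image]
    rcases Nat.lt_or_ge M N with h2 | h2
    · exact Or.inl h2
    · right
      obtain ⟨K, rfl⟩ : ∃ K, M = K + N := ⟨M - N, by omega⟩
      refine ⟨K, ?_, rfl⟩
      rw [Finset.mem_filter, Finset.mem_range]
      refine ⟨by omega, ?_⟩
      by_contra h3
      push Not at h3
      apply hM.2
      have h4 := hd K
      have h5 : (Module.finrank F ↥(⨆ n ∈ range (K + N + 1), W n) : ℝ) + (S K : ℝ) ≤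
          (S (K + N) : ℝ) := by exact_mod_cast h4
      have h6 : (S (K + N) : ℝ) ≤ 2 ^ h * (S K : ℝ) := by exact_mod_cast h3
      have h7 : ∑ n ∈ range (K + N + 1), (Module.finrank F (W n) : ℝ) = (S (K + N) : ℝ) := by
        show _ = ((∑ n ∈ range (K + N + 1), Module.finrank F (W n) : ℕ) : ℝ)
        push_cast
        rfl
      rw [h7]
      have h8 : (S (K + N) : ℝ) / 2 ^ h ≤ S K := by
        rw [div_le_iff₀ (by positivity)]
        linarith
      have h9 : (1 - 1 / 2 ^ h) * (S (K + N) : ℝ) = S (K + N) - S (K + N) / 2 ^ h := by ring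
      rw [h9]
      linarith
  have h2 := Finset.card_le_card hsub
  have h3 := Finset.card_union_le (range N)
    (((range X).filter fun n => 2 ^ h * S n < S (n + N)).image (· + N))
  have h4 : (((range X).filter fun n => 2 ^ h * S n < S (n + N)).image (· + N)).card ≤
      ((range X).filter fun n => 2 ^ h * S n < S (n + N)).card := Finset.card_image_le
  rw [Finset.card_range] at h3
  calc _ ≤ h * (N + ((range X).filter fun n => 2 ^ h * S n < S (n + N)).card) :=
        Nat.mul_le_mul_left _ (h2.trans (h3.trans (Nat.add_le_add_left h4 _)))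
    _ = h * ((range X).filter fun n => 2 ^ h * S n < S (n + N)).card + h * N := by ring
    _ ≤ _ := Nat.add_le_add_right hc _

/-- the form with densities -/
theorem density {F : Type} [Field F] [Algebra F ℝ] (W : ℕ → Submodule F ℝ) (N : ℕ)
    (h1 : 1 ≤ Module.finrank F (W 0)) (hb : ∀ n, Module.finrank F (W n) ≤ 2 ^ n)
    (hd : ∀ K, Module.finrank F ↥(⨆ n ∈ range (K + N + 1), W n) +
      ∑ n ∈ range (K + 1), Module.finrank F (W n) ≤
      ∑ n ∈ range (K + N + 1), Module.finrank F (W n)) (ε : ℝ) (hε : 0 < ε) :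
    ∃ c : ℝ, c < 1 ∧ ∃ X₀ : ℕ, ∀ X ≥ X₀,
      (((range X).filter fun M => ¬ (Module.finrank F ↥(⨆ n ∈ range (M + 1), W n) : ℝ) ≤
        c * ∑ n ∈ range (M + 1), (Module.finrank F (W n) : ℝ)).card : ℝ) ≤ ε * X := by
  obtain ⟨h, hh⟩ := exists_nat_gt (2 * (N : ℝ) / ε)
  have hh0 : (0 : ℝ) < h := lt_of_le_of_lt (by positivity) hh
  obtain ⟨X₀, hX₀⟩ := exists_nat_gt (2 * ((N : ℝ) * N / h + N) / ε)
  refine ⟨1 - 1 / 2 ^ h, by
    have : (0 : ℝ) < 1 / 2 ^ h := by positivity
    linarith, X₀, fun X hX => ?_⟩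
  have h2 := share W N h1 hb hd h X
  set c := ((range X).filter fun M => ¬ (Module.finrank F ↥(⨆ n ∈ range (M + 1), W n) : ℝ) ≤
      (1 - 1 / 2 ^ h) * ∑ n ∈ range (M + 1), (Module.finrank F (W n) : ℝ)).card with hc
  have h3 : (h : ℝ) * c ≤ N * (X + N) + h * N := by exact_mod_cast h2
  have hX' : (X₀ : ℝ) ≤ X := by exact_mod_cast hX
  have h4 : 2 * ((N : ℝ) * N / h + N) / ε < X := lt_of_lt_of_le hX₀ hX'
  rw [div_lt_iff₀ hε] at h4 hh
  have h5 : (c : ℝ) ≤ N * X / h + (N * N / h + N) := by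
    have h6 : (c : ℝ) = h * c / h := by field_simp
    rw [h6, div_le_iff₀ hh0]
    have h7 : ((N : ℝ) * X / h + (N * N / h + N)) * h = N * (X + N) + h * N := by
      field_simp
      ring
    rw [h7]
    exact h3
  have h6 : (N : ℝ) * X / h ≤ ε / 2 * X := by
    rw [div_le_iff₀ hh0]
    have h7 : (N : ℝ) * 2 ≤ h * ε := by linarith
    have hX0 : (0 : ℝ) ≤ X := Nat.cast_nonneg X
    nlinarith
  linarith

theorem one_le_finrank : 1 ≤ Module.finrank ℚ (mzvSpace 0) := by
  have := finite_mzvSpace 0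
  have : Nontrivial (mzvSpace 0) := ⟨⟨1, one_mem_mzvSpace⟩, 0, fun h =>
    one_ne_zero (congrArg Subtype.val h)⟩
  exact Module.finrank_pos

theorem one_le_finrankAlg : 1 ≤ Module.finrank (algebraicClosure ℚ ℝ) (algSpace 0) := by
  have := finite_algSpace 0
  have : Nontrivial (algSpace 0) := ⟨⟨1, mem_algSpace one_mem_mzvSpace⟩, 0, fun h =>
    one_ne_zero (congrArg Subtype.val h)⟩
  exact Module.finrank_pos

/-- linear growth -/
theorem linear (N : ℕ) (h : ¬ iSupIndep (fun i : Fin (N + 1) => mzvSpace i)) (m : ℕ) (hm : 2 ≤ m) :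
    m / max N 6 ≤ Module.finrank ℚ (mzvSpace m) ∧
      m / max N 6 ≤ Module.finrank (algebraicClosure ℚ ℝ) (algSpace m) := by
  have h1 : ¬ ∀ n ≤ N, ∀ z ∈ mzvSpace n, IsAlgebraic ℚ (z / Real.pi ^ n) := fun h1 =>
    h (indep_of_alg N h1)
  push Not at h1
  obtain ⟨n, hn, z, hz, ht⟩ := h1
  obtain ⟨n', h0, h2, x, hx, y, hy, hxy⟩ := exists_ratio hn hz ht
  have hn2 : n' ≠ 1 := by
    rintro rfl
    rw [mem_mzvSpace_one hx, zero_div] at hxy
    exact hxy isAlgebraic_zero
  have hle : n' ≤ max N 6 := by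
    rcases h2 with h2 | h2
    · exact h2.trans (le_max_left _ _)
    · exact h2.le.trans (le_max_right _ _)
  have h3 : m / max N 6 ≤ m / n' := Nat.div_le_div_left hle h0
  have h4 : m / n' * n' ≤ m := Nat.div_mul_le_self m n'
  by_cases h5 : m = m / n' * n' + 1
  · have h6 : m / n' ≠ 0 := by
      intro h6
      rw [h6] at h5
      omega
    obtain ⟨j, hj⟩ := Nat.exists_eq_succ_of_ne_zero h6
    rw [hj, Nat.succ_eq_add_one] at h4 h5 h3
    rw [add_mul, one_mul] at h4 h5
    have h7 : j * n' ≤ m := by omega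
    have h8 : m ≠ j * n' + 1 := by omega
    exact ⟨h3.trans (growth hx hy hxy j m h7 h8), h3.trans (growthAlg hx hy hxy j m h7 h8)⟩
  · have h7 := growth hx hy hxy (m / n') m h4 h5
    have h8 := growthAlg hx hy hxy (m / n') m h4 h5
    omega

end Pool.Agent.PRP
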