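import Mathlib

/-!
# The number of primes up to `x` is not `O (log x)` (helper60)
-/

set_option autoImplicit false

open Finset

namespace Pool.Agent.PRP

theorem primes_big (C : ℝ) : ∃ x : ℕ, 2 ≤ x ∧
    C * Real.log x < (({p : ℕ | p.Prime} ∩ Set.Iic x).ncard : ℝ) := by
  classical
  by_contra hcon
  push Not at hcon
  set C' : ℝ := max C 1 with hC'
  have hC'0 : 0 < C' := lt_of_lt_of_le one_pos (le_max_right _ _)
  have hinf : (Set.ofPred Nat.Prime).Infinite := Nat.infinite_setOfPred_prime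
  have hprime : ∀ n, (Nat.nth Nat.Prime n).Prime := fun n => Nat.nth_mem_of_infinite hinf n
  have hcount : ∀ n : ℕ,
      n + 1 ≤ (({p : ℕ | p.Prime} ∩ Set.Iic (Nat.nth Nat.Prime n)).ncard) := by
    intro n
    have h1 : ((range (n + 1)).image (Nat.nth Nat.Prime) : Set ℕ) ⊆
        {p : ℕ | p.Prime} ∩ Set.Iic (Nat.nth Nat.Prime n) := by
      intro p hp
      rw [Finset.mem_coe, Finset.mem_image] at hp
      obtain ⟨k, hk, rfl⟩ := hp
      refine ⟨hprime k, ?_⟩
      exact (Nat.nth_strictMono hinf).monotone (Nat.lt_succ_iff.1 (Finset.mem_range.1 hk))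
    have h2 := Set.ncard_le_ncard h1 ((Set.finite_Iic _).inter_of_right _)
    rw [Set.ncard_coe_finset, Finset.card_image_of_injective _ (Nat.nth_injective hinf),
      Finset.card_range] at h2
    exact h2
  have hbound : ∀ n : ℕ, 1 / ((Nat.nth Nat.Prime n : ℕ) : ℝ) ≤ Real.exp (-(1 / C')) ^ (n + 1) := by
    intro n
    have h2 : 2 ≤ Nat.nth Nat.Prime n := (hprime n).two_le
    have h3 := hcon _ h2
    have hpos : (0 : ℝ) < ((Nat.nth Nat.Prime n : ℕ) : ℝ) := by
      have : (2 : ℝ) ≤ ((Nat.nth Nat.Prime n : ℕ) : ℝ) := by exact_mod_cast h2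
      linarith
    have hlog : 0 ≤ Real.log ((Nat.nth Nat.Prime n : ℕ) : ℝ) := by
      refine Real.log_nonneg ?_
      have : (2 : ℝ) ≤ ((Nat.nth Nat.Prime n : ℕ) : ℝ) := by exact_mod_cast h2
      linarith
    have h4 : ((n + 1 : ℕ) : ℝ) ≤ C' * Real.log ((Nat.nth Nat.Prime n : ℕ) : ℝ) := by
      have h5 : ((n + 1 : ℕ) : ℝ) ≤
          (({p : ℕ | p.Prime} ∩ Set.Iic (Nat.nth Nat.Prime n)).ncard : ℝ) := by
        exact_mod_cast hcount n
      exact (h5.trans h3).trans (mul_le_mul_of_nonneg_right (le_max_left _ _) hlog)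
    have h6 : ((n + 1 : ℕ) : ℝ) * (1 / C') ≤ Real.log ((Nat.nth Nat.Prime n : ℕ) : ℝ) := by
      rw [mul_one_div, div_le_iff₀ hC'0]
      linarith
    have h7 : Real.exp (((n + 1 : ℕ) : ℝ) * (1 / C')) ≤ ((Nat.nth Nat.Prime n : ℕ) : ℝ) := by
      rw [← Real.exp_log hpos]
      exact Real.exp_le_exp.2 h6
    have h8 : Real.exp (-(1 / C')) ^ (n + 1) = (Real.exp (((n + 1 : ℕ) : ℝ) * (1 / C')))⁻¹ := by
      rw [← Real.exp_nat_mul, ← Real.exp_neg]
      congr 1
      ring
    rw [h8, one_div]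
    exact inv_anti₀ (Real.exp_pos _) h7
  have hr : Real.exp (-(1 / C')) < 1 := by
    rw [Real.exp_lt_one_iff]
    have : 0 < 1 / C' := by positivity
    linarith
  have hsum : Summable fun n : ℕ => 1 / ((Nat.nth Nat.Prime n : ℕ) : ℝ) := by
    refine Summable.of_nonneg_of_le (fun n => by positivity) hbound ?_
    exact (summable_nat_add_iff 1).2 (summable_geometric_of_lt_one (Real.exp_pos _).le hr)
  let e : ℕ ≃ Nat.Primes := Equiv.ofBijective (fun n => ⟨Nat.nth Nat.Prime n, hprime n⟩)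
    ⟨fun a b h => Nat.nth_injective hinf (congrArg Subtype.val h), fun p => by
      refine ⟨Nat.count Nat.Prime p, Subtype.ext ?_⟩
      exact Nat.nth_count p.2⟩
  refine Nat.Primes.not_summable_one_div ?_
  rw [← e.summable_iff]
  exact hsum

end Pool.Agent.PRP
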