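import Pool.Agent.PRP.Defect

/-!
# Propagation of relations between weights: sparse sets of weights, bounds (helper60)
-/

set_option autoImplicit false

open Finset

namespace Pool.Agent.PRP

open Pool.Agent.Helper21

/-- a set which has at most `N` elements in each window has logarithmic growth -/
theorem log_growth (J : Set ℕ) (N B : ℕ) (hB : 1 ≤ B)
    (hJ : ∀ y, 2 * B ≤ y → (J ∩ Set.Icc y (y + y / B)).ncard ≤ N) :
    ∃ C : ℝ, ∀ x : ℕ, 2 ≤ x → ((J ∩ Set.Iic x).ncard : ℝ) ≤ C * Real.log x := by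
  -- the sequence of the windows
  obtain ⟨y, hy0, hys⟩ : ∃ y : ℕ → ℕ, y 0 = 2 * B ∧ ∀ i, y (i + 1) = y i + y i / B + 1 :=
    ⟨fun i => Nat.rec (2 * B) (fun _ a => a + a / B + 1) i, rfl, fun i => rfl⟩
  have hyB : ∀ i, 2 * B ≤ y i := by
    intro i
    induction i with
    | zero => rw [hy0]
    | succ i ih =>
      rw [hys]
      exact (ih.trans (Nat.le_add_right _ _)).trans (Nat.le_add_right _ _)
  have hcard : ∀ i, (J ∩ Set.Iio (y i)).ncard ≤ 2 * B + i * N := by
    intro i
    induction i with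
    | zero =>
      rw [hy0, zero_mul, add_zero]
      refine (Set.ncard_le_ncard Set.inter_subset_right (Set.finite_Iio _)).trans ?_
      rw [← Finset.coe_range, Set.ncard_coe_finset, Finset.card_range]
    | succ i ih =>
      have h1 : J ∩ Set.Iio (y (i + 1)) ⊆
          (J ∩ Set.Iio (y i)) ∪ (J ∩ Set.Icc (y i) (y i + y i / B)) := by
        rintro a ⟨ha, ha'⟩
        rw [Set.mem_Iio, hys] at ha'
        rcases Nat.lt_or_ge a (y i) with h | h
        · exact Or.inl ⟨ha, h⟩
        · exact Or.inr ⟨ha, h, by omega⟩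
      have hf1 : (J ∩ Set.Iio (y i)).Finite := (Set.finite_Iio _).inter_of_right _
      have hf2 : (J ∩ Set.Icc (y i) (y i + y i / B)).Finite := (Set.finite_Icc _ _).inter_of_right _
      have h2 := Set.ncard_le_ncard h1 (hf1.union hf2)
      have h3 := Set.ncard_union_le (J ∩ Set.Iio (y i)) (J ∩ Set.Icc (y i) (y i + y i / B))
      have h4 := hJ (y i) (hyB i)
      have h5 : (i + 1) * N = i * N + N := by ring
      omega
  have hBR : (0 : ℝ) < B := by exact_mod_cast hB
  set q : ℝ := 1 + 1 / (B : ℝ) with hq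
  have hq1 : 1 < q := by
    rw [hq]
    have : 0 < 1 / (B : ℝ) := by positivity
    linarith
  have hgrow : ∀ i, q ^ i ≤ (y i : ℝ) := by
    intro i
    induction i with
    | zero =>
      rw [hy0, pow_zero]
      have : (1 : ℝ) ≤ B := by exact_mod_cast hB
      push_cast
      linarith
    | succ i ih =>
      rw [pow_succ, hys]
      have h1 : (y i : ℝ) / B ≤ ((y i / B : ℕ) : ℝ) + 1 := by
        have h2 : y i < B * (y i / B + 1) := Nat.lt_mul_div_succ (y i) hB
        rw [div_le_iff₀ hBR]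
        have h3 : (y i : ℝ) < B * (((y i / B : ℕ) : ℝ) + 1) := by exact_mod_cast h2
        linarith
      have h2 : q ^ i * q ≤ (y i : ℝ) * q := mul_le_mul_of_nonneg_right ih (by linarith)
      refine h2.trans ?_
      rw [hq]
      push_cast
      have h3 : (y i : ℝ) * (1 + 1 / (B : ℝ)) = y i + y i / B := by ring
      rw [h3]
      linarith
  have hlq : 0 < Real.log q := Real.log_pos hq1
  have hl2 : 0 < Real.log 2 := Real.log_pos (by norm_num)
  refine ⟨(2 * B + 2 * N) / Real.log 2 + N / Real.log q, fun x hx => ?_⟩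
  have hxR : (2 : ℝ) ≤ x := by exact_mod_cast hx
  have hx0 : (0 : ℝ) < x := by linarith
  have hlx : Real.log 2 ≤ Real.log x := Real.log_le_log (by norm_num) hxR
  set i := ⌈Real.log x / Real.log q⌉₊ + 1 with hi
  have hi1 : Real.log x / Real.log q < i := by
    rw [hi]
    push_cast
    have := Nat.le_ceil (Real.log x / Real.log q)
    linarith
  have hi2 : (i : ℝ) ≤ Real.log x / Real.log q + 2 := by
    rw [hi]
    push_cast
    have h1 : 0 ≤ Real.log x / Real.log q := div_nonneg (by linarith) hlq.le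
    have := Nat.ceil_lt_add_one h1
    linarith
  have hxy : x < y i := by
    have h1 : Real.log x < i * Real.log q := by
      rwa [div_lt_iff₀ hlq] at hi1
    have h2 : (x : ℝ) < q ^ i := by
      rw [← Real.log_pow] at h1
      exact (Real.log_lt_log_iff hx0 (by positivity)).1 h1
    exact_mod_cast h2.trans_le (hgrow i)
  have h1 : (J ∩ Set.Iic x).ncard ≤ 2 * B + i * N := by
    refine (Set.ncard_le_ncard ?_ ((Set.finite_Iio (y i)).inter_of_right _)).trans (hcard i)
    rintro a ⟨ha, ha'⟩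
    exact ⟨ha, lt_of_le_of_lt ha' hxy⟩
  have h2 : ((J ∩ Set.Iic x).ncard : ℝ) ≤ 2 * B + i * N := by exact_mod_cast h1
  have hN0 : (0 : ℝ) ≤ N := Nat.cast_nonneg N
  have h3 : (i : ℝ) * N ≤ (Real.log x / Real.log q + 2) * N := mul_le_mul_of_nonneg_right hi2 hN0
  have h4 : (2 * (B : ℝ) + 2 * N) ≤ (2 * B + 2 * N) / Real.log 2 * Real.log x := by
    rw [div_mul_eq_mul_div, le_div_iff₀ hl2]
    exact mul_le_mul_of_nonneg_left hlx (by positivity)
  calc ((J ∩ Set.Iic x).ncard : ℝ) ≤ 2 * B + (Real.log x / Real.log q + 2) * N := by linarith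
    _ = (2 * B + 2 * N) + N / Real.log q * Real.log x := by ring
    _ ≤ _ := by rw [add_mul]; linarith

/-- independence in a set of weights which is not too sparse implies independence of the weights
at most `N` -/
theorem sparse (J : Set ℕ)
    (hJ : ∀ C : ℝ, ∃ x : ℕ, 2 ≤ x ∧ C * Real.log x < ((J ∩ Set.Iic x).ncard : ℝ))
    (hind : iSupIndep (fun n : J => mzvSpace n)) (N : ℕ) :
    iSupIndep (fun i : Fin (N + 1) => mzvSpace i) := by
  classical
  by_contra hcon
  have hw : ∀ y, 2 * (3 * N ^ 2 + 3) ≤ y →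
      (J ∩ Set.Icc y (y + y / (3 * N ^ 2 + 3))).ncard ≤ N := by
    intro y hy
    by_contra hlt
    push Not at hlt
    have hfin : (J ∩ Set.Icc y (y + y / (3 * N ^ 2 + 3))).Finite :=
      (Set.finite_Icc _ _).inter_of_right _
    rw [Set.ncard_eq_toFinset_card _ hfin] at hlt
    obtain ⟨T, hT, hTc⟩ := Finset.exists_subset_card_eq (Nat.succ_le_of_lt hlt)
    have hTm : ∀ a ∈ T, a ∈ J ∧ y ≤ a ∧ a ≤ y + y / (3 * N ^ 2 + 3) := by
      intro a ha
      have h1 := (Set.Finite.mem_toFinset hfin).1 (hT ha)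
      exact ⟨h1.1, h1.2.1, h1.2.2⟩
    obtain ⟨s, hsm, hsT⟩ : ∃ s : Fin (N + 1) → ℕ, StrictMono s ∧ ∀ i, s i ∈ T :=
      ⟨T.orderEmbOfFin hTc, (T.orderEmbOfFin hTc).strictMono, fun i => T.orderEmbOfFin_mem hTc i⟩
    have hwin : (3 * N ^ 2 + 2) * (s (Fin.last N) - s 0) + 2 ≤ s 0 := by
      have h1 := hTm _ (hsT (Fin.last N))
      have h2 := hTm _ (hsT 0)
      have h3 : s (Fin.last N) - s 0 ≤ y / (3 * N ^ 2 + 3) := by omega
      have h4 : (3 * N ^ 2 + 3) * (y / (3 * N ^ 2 + 3)) ≤ y := Nat.mul_div_le y _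
      have h5 : 2 ≤ y / (3 * N ^ 2 + 3) := (Nat.le_div_iff_mul_le (by positivity)).2 hy
      have h6 : (3 * N ^ 2 + 2) * (s (Fin.last N) - s 0) ≤
          (3 * N ^ 2 + 2) * (y / (3 * N ^ 2 + 3)) := Nat.mul_le_mul_left _ h3
      have h7 : (3 * N ^ 2 + 3) * (y / (3 * N ^ 2 + 3)) =
          (3 * N ^ 2 + 2) * (y / (3 * N ^ 2 + 3)) + y / (3 * N ^ 2 + 3) := by ring
      omega
    have hJm : ∀ i, s i ∈ J := fun i => (hTm _ (hsT i)).1
    have hinj : Function.Injective (fun i : Fin (N + 1) => (⟨s i, hJm i⟩ : J)) := fun i j h =>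
      hsm.injective (congrArg Subtype.val h)
    have h8 : iSupIndep (fun i => mzvSpace (s i)) :=
      iSupIndep.comp (t := fun n : J => mzvSpace (n : ℕ))
        (f := fun i : Fin (N + 1) => (⟨s i, hJm i⟩ : J)) hind hinj
    have h9 := window N s hsm hwin h8
    exact hcon h9
  obtain ⟨C, hC⟩ := log_growth J N (3 * N ^ 2 + 3) (by omega) hw
  obtain ⟨x, hx, hx'⟩ := hJ C
  exact absurd (hC x hx) (not_le.2 hx')

/-- independence of all initial segments -/
theorem indep_of_fin (h : ∀ N : ℕ, iSupIndep (fun i : Fin (N + 1) => mzvSpace i)) :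
    iSupIndep mzvSpace := by
  classical
  rw [iSupIndep_iff_finsetSum_eq_zero_imp_eq_zero]
  intro s v hv hsum i hi
  obtain ⟨N, hN⟩ := s.exists_nat_subset_range
  have h1 := h N
  rw [iSupIndep_iff_finsetSum_eq_zero_imp_eq_zero] at h1
  let T : Finset (Fin (N + 1)) := Finset.univ.filter fun j => (j : ℕ) ∈ s
  have h2 : ∑ j ∈ T, v (j : ℕ) = ∑ n ∈ s, v n := by
    refine Finset.sum_bij (fun j _ => (j : ℕ)) ?_ ?_ ?_ ?_
    · intro j hj
      exact (Finset.mem_filter.1 hj).2
    · intro j _ j' _ hjj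
      exact Fin.ext hjj
    · intro n hn
      have h3 := Finset.mem_range.1 (hN hn)
      exact ⟨⟨n, by omega⟩, Finset.mem_filter.2 ⟨Finset.mem_univ _, hn⟩, rfl⟩
    · intro j _
      rfl
  have h3 := Finset.mem_range.1 (hN hi)
  exact h1 T (fun j => v (j : ℕ)) (fun j hj => hv _ (Finset.mem_filter.1 hj).2) (h2.trans hsum)
    ⟨i, by omega⟩ (Finset.mem_filter.2 ⟨Finset.mem_univ _, hi⟩)

/-- at most `2 ^ n` generators -/
theorem exists_gens (n : ℕ) : ∃ T : Finset ℝ, T.card ≤ 2 ^ n ∧
    (mzvSpace n : Set ℝ) ⊆ Submodule.span ℚ (T : Set ℝ) := by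
  classical
  refine ⟨Finset.image (fun c : Composition n => zl c.blocks) Finset.univ, ?_, ?_⟩
  · refine Finset.card_image_le.trans ?_
    rw [Finset.card_univ, composition_card]
    exact Nat.pow_le_pow_right (by norm_num) (Nat.sub_le n 1)
  · rw [mzvSpace_eq, SetLike.coe_subset_coe]
    refine Submodule.span_mono ?_
    rintro x ⟨w, hw, hN, rfl⟩
    rw [Finset.coe_image]
    exact ⟨⟨w, fun {i} hi => hw.1 i hi, hN⟩, by simp, rfl⟩

theorem finrank_le (n : ℕ) : Module.finrank ℚ (mzvSpace n) ≤ 2 ^ n := by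
  obtain ⟨T, hT, hT'⟩ := exists_gens n
  have : Module.Finite ℚ (Submodule.span ℚ (T : Set ℝ)) :=
    Module.Finite.span_of_finite _ T.finite_toSet
  have h1 : Module.finrank ℚ (mzvSpace n) ≤ Module.finrank ℚ (Submodule.span ℚ (T : Set ℝ)) :=
    Submodule.finrank_mono hT'
  exact h1.trans ((finrank_span_finset_le_card T).trans hT)

theorem finrankAlg_le (n : ℕ) : Module.finrank (algebraicClosure ℚ ℝ) (algSpace n) ≤ 2 ^ n := by
  obtain ⟨T, hT, hT'⟩ := exists_gens n
  have : Module.Finite (algebraicClosure ℚ ℝ)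
      (Submodule.span (algebraicClosure ℚ ℝ) (T : Set ℝ)) :=
    Module.Finite.span_of_finite _ T.finite_toSet
  have h1 : Module.finrank (algebraicClosure ℚ ℝ) (algSpace n) ≤
      Module.finrank (algebraicClosure ℚ ℝ) (Submodule.span (algebraicClosure ℚ ℝ) (T : Set ℝ)) := by
    refine Submodule.finrank_mono ?_
    unfold algSpace
    rw [Submodule.span_le]
    exact hT'.trans (Submodule.span_subset_span ℚ (algebraicClosure ℚ ℝ) (T : Set ℝ))
  exact h1.trans ((finrank_span_finset_le_card T).trans hT)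

theorem mul_mem_algSpace {m n : ℕ} {x y : ℝ} (hx : x ∈ algSpace m) (hy : y ∈ algSpace n) :
    x * y ∈ algSpace (m + n) := by
  unfold algSpace at hx hy
  induction hx using Submodule.span_induction with
  | mem x hx =>
    induction hy using Submodule.span_induction with
    | mem y hy => exact mem_algSpace (mul_mem_mzvSpace hx hy)
    | zero => rw [mul_zero]; exact Submodule.zero_mem _
    | add y y' _ _ h h' => rw [mul_add]; exact Submodule.add_mem _ h h'
    | smul a y _ h => rw [mul_smul_comm]; exact Submodule.smul_mem _ _ h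
  | zero => rw [zero_mul]; exact Submodule.zero_mem _
  | add x x' _ _ h h' => rw [add_mul]; exact Submodule.add_mem _ h h'
  | smul a x _ h => rw [smul_mul_assoc]; exact Submodule.smul_mem _ _ h

end Pool.Agent.PRP
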