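import Pool.Agent.PRP.Sparse

/-!
# Propagation of relations between weights: windows (helper60)

The elimination is the one of `Pool.Agent.Helper21.window` (helper21).
-/

set_option autoImplicit false

open Finset

namespace Pool.Agent.PRP

open Pool.Agent.Helper21

/-- the relation in a window, before multiplication with the elements of a weight space -/
theorem core (N : ℕ) (s : Fin (N + 1) → ℕ) (hs : StrictMono s)
    (hcon : ¬ iSupIndep (fun i : Fin (N + 1) => mzvSpace i)) :
    ∃ r ≤ N, ∃ c : Fin (N + 1) → ℝ,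
      (∀ i, c i ∈ mzvSpace (r * ((s (Fin.last N) - s 0) * (3 * N)) + 2 * (s (Fin.last N) - s 0) +
        (s i - s 0))) ∧ (∃ i, c i ≠ 0) ∧ ∑ i, c i = 0 := by
  classical
  obtain ⟨z, hz, hsum, n0, hn0, hne⟩ := exists_relation N hcon
  set D := Nat.findGreatest (fun n => z n ≠ 0) N with hD
  have hDN : D ≤ N := Nat.findGreatest_le N
  have hzD : z D ≠ 0 := Nat.findGreatest_spec (P := fun n => z n ≠ 0) hn0 hne
  have hzgt : ∀ n, D < n → n ≤ N → z n = 0 := by
    intro n h1 h2
    by_contra h3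
    exact Nat.findGreatest_is_greatest h1 h2 h3
  have hsumD : ∑ n ∈ range (D + 1), z n = 0 := by
    rw [← hsum]
    apply Finset.sum_subset
    · intro x hx
      rw [Finset.mem_range] at hx ⊢
      omega
    · intro x hx hx'
      rw [Finset.mem_range] at hx hx'
      exact hzgt x (by omega) (by omega)
  obtain ⟨D', hD'⟩ : ∃ D', D = D' + 1 := by
    rcases Nat.eq_zero_or_pos D with h0 | h0
    · rw [h0] at hsumD hzD
      simp at hsumD
      exact absurd hsumD hzD
    · exact ⟨D - 1, by omega⟩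
  set p : ℝ := Real.pi ^ 2 with hp
  set q : ℝ := zl [3] with hq
  have hp0 : p ≠ 0 := by have := Real.pi_pos; positivity
  have hq0 : q ≠ 0 := zl_three_pos.ne'
  have hpm : p ∈ mzvSpace 2 := pi_sq_mem
  have hqm : q ∈ mzvSpace 3 := zl_three_mem
  set t : ℝ := q / p with ht
  set a : ℕ → ℝ := fun n => z n * p ^ n * q ^ (N - n) with ha
  have ham : ∀ n ≤ D' + 1, a n ∈ mzvSpace (3 * N) := by
    intro n hn
    have h := mul_mem_mzvSpace (mul_mem_mzvSpace (hz n) (pow_mem_mzvSpace hpm n))
      (pow_mem_mzvSpace hqm (N - n))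
    have e : n + n * 2 + (N - n) * 3 = 3 * N := by omega
    rwa [e] at h
  have hat : ∀ n ≤ N, a n * t ^ n = z n * q ^ N := by
    intro n hn
    have e : q ^ N = q ^ (N - n) * q ^ n := by
      rw [← pow_add]
      congr 1
      omega
    rw [ha, ht, div_pow, e]
    field_simp
  have haD : a D ≠ 0 := by
    rw [ha]
    have h1 : p ^ D ≠ 0 := pow_ne_zero _ hp0
    have h2 : q ^ (N - D) ≠ 0 := pow_ne_zero _ hq0
    exact mul_ne_zero (mul_ne_zero hzD h1) h2
  have harel : ∑ i ∈ range (D' + 2), a i * t ^ i = 0 := by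
    have : ∑ i ∈ range (D' + 2), a i * t ^ i = (∑ n ∈ range (D + 1), z n) * q ^ N := by
      rw [Finset.sum_mul, hD']
      apply Finset.sum_congr rfl
      intro i hi
      rw [Finset.mem_range] at hi
      exact hat i (by omega)
    rw [this, hsumD, zero_mul]
  -- exponents
  set J : ℕ := s (Fin.last N) - s 0 with hJ
  let e : Fin (D + 1) → Fin (N + 1) := Fin.castLE (by omega)
  have he : Function.Injective e := Fin.castLE_injective _
  let jj : Fin (D + 1) → ℕ := fun i => s (e i) - s 0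
  have hs0 : ∀ i, s 0 ≤ s i := fun i => hs.monotone (Fin.zero_le i)
  have hsl : ∀ i, s i ≤ s (Fin.last N) := fun i => hs.monotone (Fin.le_last i)
  have hjJ : ∀ i, jj i ≤ J := by
    intro i
    have := hsl (e i)
    simp only [jj, hJ]
    omega
  choose c hcm hcs using fun i : Fin (D + 1) => coord D' (3 * N) a t ham harel (jj i)
  let v : Fin (D + 1) → Fin D → ℝ := fun i b => a D ^ (J - jj i) * c i b
  have hvm : ∀ i b, v i b ∈ mzvSpace (J * (3 * N)) := by
    intro i b
    have hb : (b : ℕ) ≤ D' := by have := b.2; omega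
    have hDm : a D ∈ mzvSpace (3 * N) := ham D (by omega)
    have h := mul_mem_mzvSpace (pow_mem_mzvSpace hDm (J - jj i)) (hcm i b hb)
    have e1 : (J - jj i) * (3 * N) + jj i * (3 * N) = J * (3 * N) := by
      rw [← add_mul]
      congr 1
      have := hjJ i
      omega
    rwa [e1] at h
  have hvs : ∀ i, a D ^ J * t ^ (jj i) = ∑ b : Fin D, v i b * t ^ (b : ℕ) := by
    intro i
    have h1 := hcs i
    rw [← hD', Finset.sum_range] at h1
    have e1 : a D ^ J = a D ^ (J - jj i) * a D ^ (jj i) := by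
      rw [← pow_add]
      congr 1
      have := hjJ i
      omega
    rw [e1, mul_assoc, h1, Finset.mul_sum]
    apply Finset.sum_congr rfl
    intro b _
    simp only [v]
    ring
  obtain ⟨r, hrD, F, hF, d, hdm, ⟨a0, hda0⟩, hd⟩ := cramer_elim D (J * (3 * N)) v hvm
  have hrel2 : ∑ b, d b * t ^ (jj (F b)) = 0 := by
    have h1 : a D ^ J * ∑ b, d b * t ^ (jj (F b)) = 0 := by
      rw [Finset.mul_sum]
      have e1 : ∀ b, a D ^ J * (d b * t ^ (jj (F b))) = ∑ x : Fin D, (d b * v (F b) x) * t ^ (x : ℕ) := by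
        intro b
        have : a D ^ J * (d b * t ^ (jj (F b))) = d b * (a D ^ J * t ^ (jj (F b))) := by ring
        rw [this, hvs, Finset.mul_sum]
        apply Finset.sum_congr rfl
        intro x _
        ring
      rw [Finset.sum_congr rfl (fun b _ => e1 b), Finset.sum_comm]
      apply Finset.sum_eq_zero
      intro x _
      rw [← Finset.sum_mul, hd x, zero_mul]
    rcases mul_eq_zero.1 h1 with h2 | h2
    · exact absurd h2 (pow_ne_zero _ haD)
    · exact h2
  have hG : Function.Injective (fun b => e (F b)) := he.comp hF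
  -- the terms
  let u : Fin (r + 1) → ℝ := fun b => d b * q ^ (jj (F b)) * p ^ (J - jj (F b))
  have hu : ∀ b, u b = d b * q ^ (jj (F b)) * p ^ (J - jj (F b)) := fun b => rfl
  have hum : ∀ b, u b ∈ mzvSpace (r * (J * (3 * N)) + 2 * J + (s (e (F b)) - s 0)) := by
    intro b
    have h := mul_mem_mzvSpace (mul_mem_mzvSpace (hdm b)
      (pow_mem_mzvSpace hqm (jj (F b)))) (pow_mem_mzvSpace hpm (J - jj (F b)))
    have h1 := hjJ (F b)
    have h3 : jj (F b) = s (e (F b)) - s 0 := rfl
    have e1 : r * (J * (3 * N)) + jj (F b) * 3 + (J - jj (F b)) * 2 =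
        r * (J * (3 * N)) + 2 * J + (s (e (F b)) - s 0) := by
      rw [← h3]
      omega
    rw [e1] at h
    exact h
  have husum : ∑ b, u b = 0 := by
    have e1 : ∀ b, u b = (d b * t ^ (jj (F b))) * p ^ J := by
      intro b
      have e2 : p ^ J = p ^ (J - jj (F b)) * p ^ (jj (F b)) := by
        rw [← pow_add]
        congr 1
        have := hjJ (F b)
        omega
      rw [hu, e2, ht, div_pow]
      field_simp
    rw [Finset.sum_congr rfl (fun b _ => e1 b), ← Finset.sum_mul, hrel2, zero_mul]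
  have hu0 : u a0 ≠ 0 := by
    rw [hu]
    exact mul_ne_zero (mul_ne_zero hda0 (pow_ne_zero _ hq0)) (pow_ne_zero _ hp0)
  clear_value u
  refine ⟨r, hrD.trans hDN, fun i => ∑ b, if e (F b) = i then u b else 0, ?_, ⟨e (F a0), ?_⟩, ?_⟩
  · intro i
    refine Submodule.sum_mem _ fun b _ => ?_
    split_ifs with h
    · rw [← h]
      exact hum b
    · exact Submodule.zero_mem _
  · have h1 : (∑ b, if e (F b) = e (F a0) then u b else 0) = u a0 := by
      rw [Finset.sum_eq_single a0]
      · rw [if_pos rfl]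
      · intro b _ hb
        exact if_neg fun h => hb (hG h)
      · intro h
        exact absurd (Finset.mem_univ _) h
    show (∑ b, if e (F b) = e (F a0) then u b else 0) ≠ 0
    rw [h1]
    exact hu0
  · rw [Finset.sum_comm]
    refine Eq.trans (Finset.sum_congr rfl fun b _ => ?_) husum
    rw [Finset.sum_ite_eq]
    simp

/-- the weights which are lost in the elimination -/
theorem gap (N r J a : ℕ) (hr : r ≤ N) (ha : (3 * N ^ 2 + 2) * J ≤ a) :
    ∃ g, a - (r * (J * (3 * N)) + 2 * J) = (a - (3 * N ^ 2 + 2) * J) + g ∧ g ≠ 1 ∧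
      r * (J * (3 * N)) + 2 * J ≤ a := by
  have hEle : r * (J * (3 * N)) + 2 * J ≤ (3 * N ^ 2 + 2) * J := by
    have h1 : r * (J * (3 * N)) ≤ N * (J * (3 * N)) := Nat.mul_le_mul_right _ hr
    have h2 : N * (J * (3 * N)) + 2 * J = (3 * N ^ 2 + 2) * J := by ring
    rw [← h2]
    exact Nat.add_le_add_right h1 _
  refine ⟨(3 * N ^ 2 + 2) * J - (r * (J * (3 * N)) + 2 * J), by omega, ?_, by omega⟩
  obtain ⟨m, hm⟩ : ∃ m, N = r + m := ⟨N - r, by omega⟩
  have h1 : (3 * N ^ 2 + 2) * J = (r * (J * (3 * N)) + 2 * J) + 3 * (m * J * N) := by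
    have h4 : (3 * N ^ 2 + 2) * J = (3 * ((r + m) * N) + 2) * J := by
      rw [← hm]; ring
    rw [h4]
    ring
  omega

/-- the weights in a window are dependent -/
theorem windowDep (N : ℕ) (s : Fin (N + 1) → ℕ) (hs : StrictMono s)
    (hcon : ¬ iSupIndep (fun i : Fin (N + 1) => mzvSpace i))
    (hwin : (3 * N ^ 2 + 2) * (s (Fin.last N) - s 0) ≤ s 0)
    (h1 : s 0 - (3 * N ^ 2 + 2) * (s (Fin.last N) - s 0) ≠ 1) :
    ¬ iSupIndep (fun i => mzvSpace (s i)) := by
  classical
  intro hind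
  obtain ⟨r, hr, c, hc, ⟨i₀, hi₀⟩, hsum⟩ := core N s hs hcon
  obtain ⟨g, hg, hg1, hE⟩ := gap N r (s (Fin.last N) - s 0) (s 0) hr hwin
  obtain ⟨w, hw, hw0⟩ := exists_ne_zero
    (m := s 0 - (r * ((s (Fin.last N) - s 0) * (3 * N)) + 2 * (s (Fin.last N) - s 0))) (by omega)
  rw [iSupIndep_iff_finsetSum_eq_zero_imp_eq_zero] at hind
  have h2 := hind Finset.univ (fun i => c i * w) (fun i _ => by
    have h3 := mul_mem_mzvSpace (hc i) hw
    have h4 : s 0 ≤ s i := hs.monotone (Fin.zero_le i)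
    have h5 : r * ((s (Fin.last N) - s 0) * (3 * N)) + 2 * (s (Fin.last N) - s 0) + (s i - s 0) +
        (s 0 - (r * ((s (Fin.last N) - s 0) * (3 * N)) + 2 * (s (Fin.last N) - s 0))) = s i := by
      omega
    rwa [h5] at h3) (by rw [← Finset.sum_mul, hsum, zero_mul]) i₀ (Finset.mem_univ _)
  exact mul_ne_zero hi₀ hw0 h2

variable {F : Type} [Field F] [Algebra F ℝ] {W : ℕ → Submodule F ℝ}

/-- the dimension grows -/
theorem finrank_mono_weight (hW : ∀ n x, x ∈ mzvSpace n → x ∈ W n)
    (hmul : ∀ m n x y, x ∈ W m → y ∈ W n → x * y ∈ W (m + n))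
    (hfin : ∀ n, Module.Finite F (W n)) (n j : ℕ) (hj : j ≠ 1) :
    Module.finrank F (W n) ≤ Module.finrank F (W (n + j)) := by
  obtain ⟨w, hw, hw0⟩ := exists_ne_zero hj
  have := hfin (n + j)
  have := hfin n
  let μ : W n →ₗ[F] W (n + j) :=
    { toFun := fun v => ⟨v * w, hmul n j _ _ v.2 (hW j w hw)⟩
      map_add' := by
        intro v v'
        refine Subtype.ext ?_
        show ((v : ℝ) + v') * w = v * w + v' * w
        rw [add_mul]
      map_smul' := by
        intro c v
        refine Subtype.ext ?_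
        show (c • (v : ℝ)) * w = c • (v * w)
        rw [smul_mul_assoc] }
  refine LinearMap.finrank_le_finrank_of_injective (f := μ) ?_
  rw [injective_iff_map_eq_zero]
  intro v hv
  have h1 : (v : ℝ) * w = 0 := congrArg Subtype.val hv
  rcases mul_eq_zero.1 h1 with h2 | h2
  · exact Subtype.ext h2
  · exact absurd h2 hw0

/-- the sum map of a window -/
noncomputable def sgw (W : ℕ → Submodule F ℝ) {N : ℕ} (s : Fin (N + 1) → ℕ) :
    (∀ i : Fin (N + 1), W (s i)) →ₗ[F] ℝ :=
  ∑ i : Fin (N + 1), (W (s i)).subtype ∘ₗ LinearMap.proj i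

theorem sgw_apply {N : ℕ} (s : Fin (N + 1) → ℕ) (v : ∀ i : Fin (N + 1), W (s i)) :
    sgw W s v = ∑ i, (v i : ℝ) := by
  unfold sgw
  rw [LinearMap.sum_apply]
  rfl

theorem le_range_sgw {N : ℕ} (s : Fin (N + 1) → ℕ) :
    (⨆ i, W (s i)) ≤ LinearMap.range (sgw W s) := by
  classical
  refine iSup_le fun i x hx => ?_
  refine ⟨Pi.single i (⟨x, hx⟩ : W (s i)), ?_⟩
  rw [sgw_apply, Finset.sum_eq_single i]
  · rw [Pi.single_eq_same]
  · intro b _ hb
    rw [Pi.single_eq_of_ne hb]
    rfl
  · intro h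
    exact absurd (Finset.mem_univ _) h

/-- many relations in each window -/
theorem windowDefect (hW : ∀ n x, x ∈ mzvSpace n → x ∈ W n)
    (hmul : ∀ m n x y, x ∈ W m → y ∈ W n → x * y ∈ W (m + n))
    (hfin : ∀ n, Module.Finite F (W n)) (N : ℕ) (s : Fin (N + 1) → ℕ) (hs : StrictMono s)
    (hcon : ¬ iSupIndep (fun i : Fin (N + 1) => mzvSpace i))
    (hwin : (3 * N ^ 2 + 2) * (s (Fin.last N) - s 0) ≤ s 0) :
    Module.finrank F ↥(⨆ i, W (s i)) +
      Module.finrank F (W (s 0 - (3 * N ^ 2 + 2) * (s (Fin.last N) - s 0))) ≤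
      ∑ i, Module.finrank F (W (s i)) := by
  obtain ⟨r, hr, c, hc, ⟨i₀, hi₀⟩, hsum⟩ := core N s hs hcon
  have hfin' := hfin
  set J : ℕ := s (Fin.last N) - s 0 with hJ
  have hs0 : ∀ i, s 0 ≤ s i := fun i => hs.monotone (Fin.zero_le i)
  obtain ⟨g, hg, hg1, hEs⟩ := gap N r J (s 0) hr hwin
  set E : ℕ := r * (J * (3 * N)) + 2 * J with hE
  have hmu : ∀ (w : W (s 0 - E)) (i : Fin (N + 1)), c i * (w : ℝ) ∈ W (s i) := by
    intro w i
    have h1 := hmul _ _ _ _ (hW _ _ (hc i)) w.2
    have h2 : E + (s i - s 0) + (s 0 - E) = s i := by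
      have := hs0 i
      omega
    rwa [h2] at h1
  let μ : W (s 0 - E) →ₗ[F] (∀ i : Fin (N + 1), W (s i)) :=
    { toFun := fun w i => ⟨c i * w, hmu w i⟩
      map_add' := by
        intro w w'
        funext i
        refine Subtype.ext ?_
        show c i * ((w : ℝ) + w') = c i * w + c i * w'
        rw [mul_add]
      map_smul' := by
        intro a w
        funext i
        refine Subtype.ext ?_
        show c i * (a • (w : ℝ)) = a • (c i * w)
        rw [mul_smul_comm] }
  have hμ : ∀ w i, ((μ w) i : ℝ) = c i * w := fun w i => rfl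
  have hker : ∀ w, μ w ∈ LinearMap.ker (sgw W s) := by
    intro w
    rw [LinearMap.mem_ker, sgw_apply]
    rw [Finset.sum_congr rfl fun i _ => hμ w i, ← Finset.sum_mul, hsum, zero_mul]
  have hinj : Function.Injective (LinearMap.codRestrict (LinearMap.ker (sgw W s)) μ hker) := by
    rw [injective_iff_map_eq_zero]
    intro w hw
    have h1 : μ w = 0 := congrArg Subtype.val hw
    have h2 := hμ w i₀
    rw [h1] at h2
    have h3 : (0 : ℝ) = c i₀ * w := h2
    rcases mul_eq_zero.1 h3.symm with h4 | h4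
    · exact absurd h4 hi₀
    · exact Subtype.ext h4
  have h1 := LinearMap.finrank_le_finrank_of_injective hinj
  have h2 := LinearMap.finrank_range_add_finrank_ker (sgw W s)
  have h3 : Module.finrank F ↥(⨆ i, W (s i)) ≤ Module.finrank F (LinearMap.range (sgw W s)) :=
    Submodule.finrank_mono (le_range_sgw s)
  have h4 := finrank_mono_weight hW hmul hfin (s 0 - (3 * N ^ 2 + 2) * J) g hg1
  rw [← hg] at h4
  rw [Module.finrank_pi_fintype] at h2
  omega

end Pool.Agent.PRP
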